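import Pool.Agent.helper13.U4.Spec

/-!
# Project U4 (MP_62ffdf_lc): row HC2
-/

set_option autoImplicit false

namespace Pool.Agent.U4

lemma HC2_h4 {k h : ℕ} (hk : 2 ≤ k) (hh : h = 2 ^ k) : h % 4 = 0 ∧ 4 ≤ h := by
  obtain ⟨j, rfl⟩ := Nat.exists_eq_add_of_le hk
  have h1 : h = 4 * 2 ^ j := by rw [hh, pow_add]; norm_num
  have h2 : 0 < 2 ^ j := by positivity
  omega

lemma HC2_last {k q h v : ℕ} (hP : Par k q h v) (C : ℕ → Bool) (φ : ℕ → ℕ → Prop)
    (hC : Col h v C φ) : C v = true ↔ φ (2 * q) (h - 1) := by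
  obtain ⟨h4, h4'⟩ := HC2_h4 hP.hk hP.hh
  have hv := hP.hv
  have e : (2 * q) * h + (h - 1) = v := by
    have : (2 * q) * h = 2 * h * q := by ring
    omega
  have := hC (2 * q) (h - 1) (by omega) (by omega)
  rwa [e] at this

lemma HC2_fff {P Q R S : Prop} (hQ : ¬Q) (hR : ¬R) (hS : ¬S) (hP : ¬P) : P ↔ E1 Q R S := by
  unfold E1; tauto
lemma HC2_tff {P Q R S : Prop} (hQ : Q) (hR : ¬R) (hS : ¬S) (hP : P) : P ↔ E1 Q R S := by
  unfold E1; tauto
lemma HC2_ftf {P Q R S : Prop} (hQ : ¬Q) (hR : R) (hS : ¬S) (hP : P) : P ↔ E1 Q R S := by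
  unfold E1; tauto
lemma HC2_fft {P Q R S : Prop} (hQ : ¬Q) (hR : ¬R) (hS : S) (hP : P) : P ↔ E1 Q R S := by
  unfold E1; tauto
lemma HC2_ttf {P Q R S : Prop} (hQ : Q) (hR : R) (hS : ¬S) (hP : ¬P) : P ↔ E1 Q R S := by
  unfold E1; tauto
lemma HC2_tft {P Q R S : Prop} (hQ : Q) (hR : ¬R) (hS : S) (hP : ¬P) : P ↔ E1 Q R S := by
  unfold E1; tauto
lemma HC2_ftt {P Q R S : Prop} (hQ : ¬Q) (hR : R) (hS : S) (hP : ¬P) : P ↔ E1 Q R S := by
  unfold E1; tauto
lemma HC2_ttt {P Q R S : Prop} (hQ : Q) (hR : R) (hS : S) (hP : ¬P) : P ↔ E1 Q R S := by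
  unfold E1; tauto

lemma HC2_step2 (B d : ℕ) : c2 B (d + 1) ↔ E1 (c2 B d) (c1 B d) (c0 B d) := by
  obtain ⟨e, r, hr, rfl⟩ : ∃ e r, r < 4 ∧ d = 4 * e + r :=
    ⟨d / 4, d % 4, Nat.mod_lt _ (by norm_num), by omega⟩
  obtain ⟨b, s, hs, rfl⟩ : ∃ b s, s < 2 ∧ B = 2 * b + s :=
    ⟨B / 2, B % 2, Nat.mod_lt _ (by norm_num), by omega⟩
  unfold c2 c1 c0
  interval_cases r <;> interval_cases s <;> rcases b with _ | _ | b <;> rcases e with _ | e <;>
  first
    | exact HC2_fff (by omega) (by omega) (by omega) (by omega)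
    | exact HC2_fft (by omega) (by omega) (by omega) (by omega)
    | exact HC2_ftf (by omega) (by omega) (by omega) (by omega)
    | exact HC2_ftt (by omega) (by omega) (by omega) (by omega)
    | exact HC2_tff (by omega) (by omega) (by omega) (by omega)
    | exact HC2_tft (by omega) (by omega) (by omega) (by omega)
    | exact HC2_ttf (by omega) (by omega) (by omega) (by omega)
    | exact HC2_ttt (by omega) (by omega) (by omega) (by omega)

lemma HC2_up2 (h B : ℕ) (h4 : h % 4 = 0) (h4' : 4 ≤ h) :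
    c2 (B + 1) 0 ↔ E1 (c2 B (h - 1)) (c1 B (h - 1)) (c0 B (h - 1)) := by
  obtain ⟨b, s, hs, rfl⟩ : ∃ b s, s < 2 ∧ B = 2 * b + s :=
    ⟨B / 2, B % 2, Nat.mod_lt _ (by norm_num), by omega⟩
  unfold c2 c1 c0
  interval_cases s <;> rcases b with _ | _ | b <;>
  first
    | exact HC2_fff (by omega) (by omega) (by omega) (by omega)
    | exact HC2_fft (by omega) (by omega) (by omega) (by omega)
    | exact HC2_ftf (by omega) (by omega) (by omega) (by omega)
    | exact HC2_ftt (by omega) (by omega) (by omega) (by omega)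
    | exact HC2_tff (by omega) (by omega) (by omega) (by omega)
    | exact HC2_tft (by omega) (by omega) (by omega) (by omega)
    | exact HC2_ttf (by omega) (by omega) (by omega) (by omega)
    | exact HC2_ttt (by omega) (by omega) (by omega) (by omega)

lemma HC2_step3 (B d : ℕ) : c3 B (d + 1) ↔ E1 (c3 B d) (c2 B d) (c1 B d) := by
  obtain ⟨e, r, hr, rfl⟩ : ∃ e r, r < 4 ∧ d = 4 * e + r :=
    ⟨d / 4, d % 4, Nat.mod_lt _ (by norm_num), by omega⟩
  obtain ⟨b, s, hs, rfl⟩ : ∃ b s, s < 2 ∧ B = 2 * b + s :=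
    ⟨B / 2, B % 2, Nat.mod_lt _ (by norm_num), by omega⟩
  unfold c3 c2 c1
  interval_cases r <;> interval_cases s <;> rcases b with _ | _ | b <;> rcases e with _ | e <;>
  first
    | exact HC2_fff (by omega) (by omega) (by omega) (by omega)
    | exact HC2_fft (by omega) (by omega) (by omega) (by omega)
    | exact HC2_ftf (by omega) (by omega) (by omega) (by omega)
    | exact HC2_ftt (by omega) (by omega) (by omega) (by omega)
    | exact HC2_tff (by omega) (by omega) (by omega) (by omega)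
    | exact HC2_tft (by omega) (by omega) (by omega) (by omega)
    | exact HC2_ttf (by omega) (by omega) (by omega) (by omega)
    | exact HC2_ttt (by omega) (by omega) (by omega) (by omega)

lemma HC2_up3 (h B : ℕ) (h4 : h % 4 = 0) (h4' : 4 ≤ h) :
    c3 (B + 1) 0 ↔ E1 (c3 B (h - 1)) (c2 B (h - 1)) (c1 B (h - 1)) := by
  obtain ⟨b, s, hs, rfl⟩ : ∃ b s, s < 2 ∧ B = 2 * b + s :=
    ⟨B / 2, B % 2, Nat.mod_lt _ (by norm_num), by omega⟩
  unfold c3 c2 c1
  interval_cases s <;> rcases b with _ | _ | b <;>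
  first
    | exact HC2_fff (by omega) (by omega) (by omega) (by omega)
    | exact HC2_fft (by omega) (by omega) (by omega) (by omega)
    | exact HC2_ftf (by omega) (by omega) (by omega) (by omega)
    | exact HC2_ftt (by omega) (by omega) (by omega) (by omega)
    | exact HC2_tff (by omega) (by omega) (by omega) (by omega)
    | exact HC2_tft (by omega) (by omega) (by omega) (by omega)
    | exact HC2_ttf (by omega) (by omega) (by omega) (by omega)
    | exact HC2_ttt (by omega) (by omega) (by omega) (by omega)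

lemma HC2_step4 (B d : ℕ) : c4 B (d + 1) ↔ E1 (c4 B d) (c3 B d) (c2 B d) := by
  obtain ⟨e, r, hr, rfl⟩ : ∃ e r, r < 4 ∧ d = 4 * e + r :=
    ⟨d / 4, d % 4, Nat.mod_lt _ (by norm_num), by omega⟩
  obtain ⟨b, s, hs, rfl⟩ : ∃ b s, s < 2 ∧ B = 2 * b + s :=
    ⟨B / 2, B % 2, Nat.mod_lt _ (by norm_num), by omega⟩
  unfold c4 c3 c2
  interval_cases r <;> interval_cases s <;> rcases b with _ | _ | b <;> rcases e with _ | e <;>
  first
    | exact HC2_fff (by omega) (by omega) (by omega) (by omega)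
    | exact HC2_fft (by omega) (by omega) (by omega) (by omega)
    | exact HC2_ftf (by omega) (by omega) (by omega) (by omega)
    | exact HC2_ftt (by omega) (by omega) (by omega) (by omega)
    | exact HC2_tff (by omega) (by omega) (by omega) (by omega)
    | exact HC2_tft (by omega) (by omega) (by omega) (by omega)
    | exact HC2_ttf (by omega) (by omega) (by omega) (by omega)
    | exact HC2_ttt (by omega) (by omega) (by omega) (by omega)

lemma HC2_up4 (h B : ℕ) (h4 : h % 4 = 0) (h4' : 4 ≤ h) :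
    c4 (B + 1) 0 ↔ E1 (c4 B (h - 1)) (c3 B (h - 1)) (c2 B (h - 1)) := by
  obtain ⟨b, s, hs, rfl⟩ : ∃ b s, s < 2 ∧ B = 2 * b + s :=
    ⟨B / 2, B % 2, Nat.mod_lt _ (by norm_num), by omega⟩
  unfold c4 c3 c2
  interval_cases s <;> rcases b with _ | _ | b <;>
  first
    | exact HC2_fff (by omega) (by omega) (by omega) (by omega)
    | exact HC2_fft (by omega) (by omega) (by omega) (by omega)
    | exact HC2_ftf (by omega) (by omega) (by omega) (by omega)
    | exact HC2_ftt (by omega) (by omega) (by omega) (by omega)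
    | exact HC2_tff (by omega) (by omega) (by omega) (by omega)
    | exact HC2_tft (by omega) (by omega) (by omega) (by omega)
    | exact HC2_ttf (by omega) (by omega) (by omega) (by omega)
    | exact HC2_ttt (by omega) (by omega) (by omega) (by omega)

theorem HC2 (h1 : COL_stmt) (h2 : HC1_stmt) : HC2_stmt := by
  intro k q h v x hP hx
  obtain ⟨h4, h4'⟩ := HC2_h4 hP.hk hP.hh
  obtain ⟨-, -, -, k0, k1⟩ := h2 k q h v x hP hx
  have hq := hP.hq
  have k2 : Col h v (fun t => x t (2 * h + 2)) c2 := by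
    refine h1 h v (fun t => x t (2 * h)) (fun t => x t (2 * h + 1))
      (fun t => x t (2 * h + 2))
      c0 c1 c2 (by omega) k0 k1 (fun t ht => hx.s2 t ht (2 * h)) ?_
      (fun B d _ => HC2_step2 B d) (fun B => HC2_up2 h B h4 h4')
    have e := HC2_last hP _ _ k0
    have e2 : x 0 (2 * h + 2) = x v (2 * h) := (hx.w (2 * h)).symm
    show x 0 (2 * h + 2) = true ↔ c2 0 0
    rw [e2]
    rw [show (x v (2 * h) = true ↔ c0 (2 * q) (h - 1)) from e]
    constructor
    · intro hh
      unfold c0 at hh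
      omega
    · intro hh
      unfold c2 at hh
      omega
  have k3 : Col h v (fun t => x t (2 * h + 3)) c3 := by
    refine h1 h v (fun t => x t (2 * h + 1)) (fun t => x t (2 * h + 2))
      (fun t => x t (2 * h + 3))
      c1 c2 c3 (by omega) k1 k2 (fun t ht => hx.s2 t ht (2 * h + 1)) ?_
      (fun B d _ => HC2_step3 B d) (fun B => HC2_up3 h B h4 h4')
    have e := HC2_last hP _ _ k1
    have e2 : x 0 (2 * h + 3) = x v (2 * h + 1) := (hx.w (2 * h + 1)).symm
    show x 0 (2 * h + 3) = true ↔ c3 0 0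
    rw [e2]
    rw [show (x v (2 * h + 1) = true ↔ c1 (2 * q) (h - 1)) from e]
    constructor
    · intro hh
      unfold c1 at hh
      omega
    · intro hh
      unfold c3 at hh
      omega
  have k4 : Col h v (fun t => x t (2 * h + 4)) c4 := by
    refine h1 h v (fun t => x t (2 * h + 2)) (fun t => x t (2 * h + 3))
      (fun t => x t (2 * h + 4))
      c2 c3 c4 (by omega) k2 k3 (fun t ht => hx.s2 t ht (2 * h + 2)) ?_
      (fun B d _ => HC2_step4 B d) (fun B => HC2_up4 h B h4 h4')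
    have e := HC2_last hP _ _ k2
    have e2 : x 0 (2 * h + 4) = x v (2 * h + 2) := (hx.w (2 * h + 2)).symm
    show x 0 (2 * h + 4) = true ↔ c4 0 0
    rw [e2]
    rw [show (x v (2 * h + 2) = true ↔ c2 (2 * q) (h - 1)) from e]
    constructor
    · intro hh
      unfold c2 at hh
      omega
    · intro hh
      unfold c4 at hh
      omega
  exact ⟨k2, k3, k4⟩

end Pool.Agent.U4
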