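import Pool.Agent.helper13.U4.Spec

/-!
# Project U4 (MP_62ffdf_lc): row HC3
-/

set_option autoImplicit false

namespace Pool.Agent.U4

lemma HC3_h8 {k h : ℕ} (hk : 3 ≤ k) (hh : h = 2 ^ k) : h % 8 = 0 ∧ 8 ≤ h := by
  obtain ⟨j, rfl⟩ := Nat.exists_eq_add_of_le hk
  have h1 : h = 8 * 2 ^ j := by rw [hh, pow_add]; norm_num
  have h2 : 0 < 2 ^ j := by positivity
  omega

lemma HC3_last {k q h v : ℕ} (hP : Par k q h v) (h8 : 8 ≤ h) (C : ℕ → Bool) (φ : ℕ → ℕ → Prop)
    (hC : Col h v C φ) : C v = true ↔ φ (2 * q) (h - 1) := by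
  have hv := hP.hv
  have e : (2 * q) * h + (h - 1) = v := by
    have : (2 * q) * h = 2 * h * q := by ring
    omega
  have := hC (2 * q) (h - 1) (by omega) (by omega)
  rwa [e] at this

lemma HC3_fff {P Q R S : Prop} (hQ : ¬Q) (hR : ¬R) (hS : ¬S) (hP : ¬P) : P ↔ E1 Q R S := by
  unfold E1; tauto
lemma HC3_tff {P Q R S : Prop} (hQ : Q) (hR : ¬R) (hS : ¬S) (hP : P) : P ↔ E1 Q R S := by
  unfold E1; tauto
lemma HC3_ftf {P Q R S : Prop} (hQ : ¬Q) (hR : R) (hS : ¬S) (hP : P) : P ↔ E1 Q R S := by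
  unfold E1; tauto
lemma HC3_fft {P Q R S : Prop} (hQ : ¬Q) (hR : ¬R) (hS : S) (hP : P) : P ↔ E1 Q R S := by
  unfold E1; tauto
lemma HC3_ttf {P Q R S : Prop} (hQ : Q) (hR : R) (hS : ¬S) (hP : ¬P) : P ↔ E1 Q R S := by
  unfold E1; tauto
lemma HC3_tft {P Q R S : Prop} (hQ : Q) (hR : ¬R) (hS : S) (hP : ¬P) : P ↔ E1 Q R S := by
  unfold E1; tauto
lemma HC3_ftt {P Q R S : Prop} (hQ : ¬Q) (hR : R) (hS : S) (hP : ¬P) : P ↔ E1 Q R S := by
  unfold E1; tauto
lemma HC3_ttt {P Q R S : Prop} (hQ : Q) (hR : R) (hS : S) (hP : ¬P) : P ↔ E1 Q R S := by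
  unfold E1; tauto

lemma HC3_step5 (B d : ℕ) : c5 B (d + 1) ↔ E1 (c5 B d) (c4 B d) (c3 B d) := by
  obtain ⟨e, r, hr, rfl⟩ : ∃ e r, r < 4 ∧ d = 4 * e + r :=
    ⟨d / 4, d % 4, Nat.mod_lt _ (by norm_num), by omega⟩
  obtain ⟨b, s, hs, rfl⟩ : ∃ b s, s < 2 ∧ B = 2 * b + s :=
    ⟨B / 2, B % 2, Nat.mod_lt _ (by norm_num), by omega⟩
  unfold c5 c4 c3
  interval_cases r <;> interval_cases s <;> rcases b with _ | _ | b <;> rcases e with _ | _ | e <;>
  first
    | exact HC3_fff (by omega) (by omega) (by omega) (by omega)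
    | exact HC3_fft (by omega) (by omega) (by omega) (by omega)
    | exact HC3_ftf (by omega) (by omega) (by omega) (by omega)
    | exact HC3_ftt (by omega) (by omega) (by omega) (by omega)
    | exact HC3_tff (by omega) (by omega) (by omega) (by omega)
    | exact HC3_tft (by omega) (by omega) (by omega) (by omega)
    | exact HC3_ttf (by omega) (by omega) (by omega) (by omega)
    | exact HC3_ttt (by omega) (by omega) (by omega) (by omega)

lemma HC3_up5 (h B : ℕ) (h4 : h % 8 = 0) (h4' : 8 ≤ h) :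
    c5 (B + 1) 0 ↔ E1 (c5 B (h - 1)) (c4 B (h - 1)) (c3 B (h - 1)) := by
  obtain ⟨b, s, hs, rfl⟩ : ∃ b s, s < 2 ∧ B = 2 * b + s :=
    ⟨B / 2, B % 2, Nat.mod_lt _ (by norm_num), by omega⟩
  unfold c5 c4 c3
  interval_cases s <;> rcases b with _ | _ | b <;>
  first
    | exact HC3_fff (by omega) (by omega) (by omega) (by omega)
    | exact HC3_fft (by omega) (by omega) (by omega) (by omega)
    | exact HC3_ftf (by omega) (by omega) (by omega) (by omega)
    | exact HC3_ftt (by omega) (by omega) (by omega) (by omega)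
    | exact HC3_tff (by omega) (by omega) (by omega) (by omega)
    | exact HC3_tft (by omega) (by omega) (by omega) (by omega)
    | exact HC3_ttf (by omega) (by omega) (by omega) (by omega)
    | exact HC3_ttt (by omega) (by omega) (by omega) (by omega)

lemma HC3_step6 (B d : ℕ) : c6 B (d + 1) ↔ E1 (c6 B d) (c5 B d) (c4 B d) := by
  obtain ⟨e, r, hr, rfl⟩ : ∃ e r, r < 4 ∧ d = 4 * e + r :=
    ⟨d / 4, d % 4, Nat.mod_lt _ (by norm_num), by omega⟩
  obtain ⟨b, s, hs, rfl⟩ : ∃ b s, s < 2 ∧ B = 2 * b + s :=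
    ⟨B / 2, B % 2, Nat.mod_lt _ (by norm_num), by omega⟩
  unfold c6 c5 c4
  interval_cases r <;> interval_cases s <;> rcases b with _ | _ | b <;> rcases e with _ | _ | e <;>
  first
    | exact HC3_fff (by omega) (by omega) (by omega) (by omega)
    | exact HC3_fft (by omega) (by omega) (by omega) (by omega)
    | exact HC3_ftf (by omega) (by omega) (by omega) (by omega)
    | exact HC3_ftt (by omega) (by omega) (by omega) (by omega)
    | exact HC3_tff (by omega) (by omega) (by omega) (by omega)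
    | exact HC3_tft (by omega) (by omega) (by omega) (by omega)
    | exact HC3_ttf (by omega) (by omega) (by omega) (by omega)
    | exact HC3_ttt (by omega) (by omega) (by omega) (by omega)

lemma HC3_up6 (h B : ℕ) (h4 : h % 8 = 0) (h4' : 8 ≤ h) :
    c6 (B + 1) 0 ↔ E1 (c6 B (h - 1)) (c5 B (h - 1)) (c4 B (h - 1)) := by
  obtain ⟨b, s, hs, rfl⟩ : ∃ b s, s < 2 ∧ B = 2 * b + s :=
    ⟨B / 2, B % 2, Nat.mod_lt _ (by norm_num), by omega⟩
  unfold c6 c5 c4
  interval_cases s <;> rcases b with _ | _ | b <;>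
  first
    | exact HC3_fff (by omega) (by omega) (by omega) (by omega)
    | exact HC3_fft (by omega) (by omega) (by omega) (by omega)
    | exact HC3_ftf (by omega) (by omega) (by omega) (by omega)
    | exact HC3_ftt (by omega) (by omega) (by omega) (by omega)
    | exact HC3_tff (by omega) (by omega) (by omega) (by omega)
    | exact HC3_tft (by omega) (by omega) (by omega) (by omega)
    | exact HC3_ttf (by omega) (by omega) (by omega) (by omega)
    | exact HC3_ttt (by omega) (by omega) (by omega) (by omega)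

theorem HC3 (h1 : COL_stmt) (h2 : HC2_stmt) : HC3_stmt := by
  intro k q h v x hP hk hx
  obtain ⟨h4, h4'⟩ := HC3_h8 hk hP.hh
  obtain ⟨-, k3, k4⟩ := h2 k q h v x hP hx
  have hq := hP.hq
  have k5 : Col h v (fun t => x t (2 * h + 5)) c5 := by
    refine h1 h v (fun t => x t (2 * h + 3)) (fun t => x t (2 * h + 4))
      (fun t => x t (2 * h + 5))
      c3 c4 c5 (by omega) k3 k4 (fun t ht => hx.s2 t ht (2 * h + 3)) ?_
      (fun B d _ => HC3_step5 B d) (fun B => HC3_up5 h B h4 h4')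
    have e := HC3_last hP h4' _ _ k3
    have e2 : x 0 (2 * h + 5) = x v (2 * h + 3) := (hx.w (2 * h + 3)).symm
    show x 0 (2 * h + 5) = true ↔ c5 0 0
    rw [e2]
    rw [show (x v (2 * h + 3) = true ↔ c3 (2 * q) (h - 1)) from e]
    constructor
    · intro hh
      unfold c3 at hh
      omega
    · intro hh
      unfold c5 at hh
      omega
  have k6 : Col h v (fun t => x t (2 * h + 6)) c6 := by
    refine h1 h v (fun t => x t (2 * h + 4)) (fun t => x t (2 * h + 5))
      (fun t => x t (2 * h + 6))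
      c4 c5 c6 (by omega) k4 k5 (fun t ht => hx.s2 t ht (2 * h + 4)) ?_
      (fun B d _ => HC3_step6 B d) (fun B => HC3_up6 h B h4 h4')
    have e := HC3_last hP h4' _ _ k4
    have e2 : x 0 (2 * h + 6) = x v (2 * h + 4) := (hx.w (2 * h + 4)).symm
    show x 0 (2 * h + 6) = true ↔ c6 0 0
    rw [e2]
    rw [show (x v (2 * h + 4) = true ↔ c4 (2 * q) (h - 1)) from e]
    constructor
    · intro _
      unfold c6
      omega
    · intro _
      unfold c4
      omega
  exact ⟨k5, k6⟩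

end Pool.Agent.U4
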