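import Pool.Agent.helper13.U4.Spec

set_option autoImplicit false

namespace Pool.Agent.U4

open Pool.Agent.UL

theorem KP2_per (t : ℕ) (ht : 32 ≤ t) : tb t = tb (32 + (t - 32) % 8) := by
  unfold tb
  rw [if_neg (by omega), if_neg (by omega)]
  congr 1
  omega

theorem KP2_per' (t j : ℕ) (ht : 32 ≤ t) (hj : (t - 32) % 8 = j) : tb t = tb (32 + j) := by
  rw [KP2_per t ht, hj]

section

variable {v : ℕ} {x : ℕ → ℕ → Bool}

theorem KP2_p1 (hx : ∀ t ≤ v, ∀ r ≤ 16, x t r = (tb t).testBit r) (t a : ℕ) (htv : t < v) (ht : 8 ≤ t) (h3 : 3 ≤ a) (h4 : a ≤ 4)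
    (hb : ((tb t).testBit (2 * 4 + a) && (tb t).testBit (2 * 4 + a + 1) && (tb t).testBit (2 * 4 + a + 2)) = true) : KP 4 v x t := by
  simp only [Bool.and_eq_true] at hb
  refine Or.inl ⟨ht, a, h3, h4, ?_, ?_, ?_⟩
  · rw [hx t htv.le _ (by omega)]; exact hb.1.1
  · rw [hx t htv.le _ (by omega)]; exact hb.1.2
  · rw [hx t htv.le _ (by omega)]; exact hb.2

theorem KP2_p2 (hx : ∀ t ≤ v, ∀ r ≤ 16, x t r = (tb t).testBit r) (t a : ℕ) (htv : t < v) (ht : 8 ≤ t) (ht' : t ≤ 16) (h3 : 3 ≤ a) (h4 : a ≤ 4)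
    (hb : ((tb t).testBit (2 * 4 + a) && (tb t).testBit (2 * 4 + a + 1) && (tb (t + 1)).testBit (2 * 4 + a) &&
      (tb (t + 1)).testBit (2 * 4 + a + 3)) = true) : KP 4 v x t := by
  simp only [Bool.and_eq_true] at hb
  refine Or.inr (Or.inl ⟨ht, ht', a, h3, h4, ?_, ?_, ?_, ?_⟩)
  · rw [hx t htv.le _ (by omega)]; exact hb.1.1.1
  · rw [hx t htv.le _ (by omega)]; exact hb.1.1.2
  · rw [hx (t + 1) htv _ (by omega)]; exact hb.1.2
  · rw [hx (t + 1) htv _ (by omega)]; exact hb.2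

theorem KP2_p5 (hx : ∀ t ≤ v, ∀ r ≤ 16, x t r = (tb t).testBit r) (t : ℕ) (htv : t + 3 ≤ v) (ht : 8 ≤ t)
    (hb : ((tb t).testBit 8 && (tb (t + 1)).testBit 8 && (tb (t + 1)).testBit 9 && (tb (t + 1)).testBit 10 &&
      (tb t).testBit 13 && (tb t).testBit 14 && (tb (t + 1)).testBit 13 && (tb (t + 2)).testBit 12 &&
      (tb (t + 2)).testBit 13 && (tb (t + 2)).testBit 14) = true) : KP 4 v x t := by
  simp only [Bool.and_eq_true] at hb
  refine Or.inr (Or.inr (Or.inr (Or.inr (Or.inl ⟨ht, htv, 5, by norm_num, le_refl 5, ⟨?_, ?_, ?_, ?_⟩, ?_, ?_, ?_, ?_, ?_, ?_⟩))))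
  · rw [hx t (by omega) _ (by norm_num)]; exact hb.1.1.1.1.1.1.1.1.1
  · rw [hx (t + 1) (by omega) _ (by norm_num)]; exact hb.1.1.1.1.1.1.1.1.2
  · rw [hx (t + 1) (by omega) _ (by norm_num)]; exact hb.1.1.1.1.1.1.1.2
  · rw [hx (t + 1) (by omega) _ (by norm_num)]; exact hb.1.1.1.1.1.1.2
  · rw [hx t (by omega) _ (by norm_num)]; exact hb.1.1.1.1.1.2
  · rw [hx t (by omega) _ (by norm_num)]; exact hb.1.1.1.1.2
  · rw [hx (t + 1) (by omega) _ (by norm_num)]; exact hb.1.1.1.2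
  · rw [hx (t + 2) (by omega) _ (by norm_num)]; exact hb.1.1.2
  · rw [hx (t + 2) (by omega) _ (by norm_num)]; exact hb.1.2
  · rw [hx (t + 2) (by omega) _ (by norm_num)]; exact hb.2

theorem KP2_p3 (hx : ∀ t ≤ v, ∀ r ≤ 16, x t r = (tb t).testBit r) (hv : 59 ≤ v) : KP 4 v x 6 := by
  refine Or.inr (Or.inr (Or.inl ⟨rfl, ?_, ?_, ?_, ?_, ?_, ?_, ?_, ?_, ?_, ?_⟩))
  · rw [hx 6 (by omega) _ (by norm_num)]; decide +kernel
  · rw [hx 6 (by omega) _ (by norm_num)]; decide +kernel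
  · rw [hx 6 (by omega) _ (by norm_num)]; decide +kernel
  · rw [hx (6 + 1) (by omega) _ (by norm_num)]; decide +kernel
  · rw [hx (6 + 1) (by omega) _ (by norm_num)]; decide +kernel
  · rw [hx (6 + 1) (by omega) _ (by norm_num)]; decide +kernel
  · rw [hx (6 + 1) (by omega) _ (by norm_num)]; decide +kernel
  · rw [hx (6 + 1) (by omega) _ (by norm_num)]; decide +kernel
  · rw [hx (6 + 1) (by omega) _ (by norm_num)]; decide +kernel
  · rw [hx (6 + 1) (by omega) _ (by norm_num)]; decide +kernel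

theorem KP2_p6 (hx : ∀ t ≤ v, ∀ r ≤ 16, x t r = (tb t).testBit r) (hv : 59 ≤ v) : KP 4 v x 14 := by
  refine Or.inr (Or.inr (Or.inr (Or.inr (Or.inr ⟨rfl, rfl, ⟨?_, ?_, ?_, ?_⟩, ?_, ?_, ?_, ?_, ?_⟩))))
  · rw [hx 14 (by omega) _ (by norm_num)]; decide +kernel
  · rw [hx (14 + 1) (by omega) _ (by norm_num)]; decide +kernel
  · rw [hx (14 + 1) (by omega) _ (by norm_num)]; decide +kernel
  · rw [hx (14 + 1) (by omega) _ (by norm_num)]; decide +kernel
  · rw [hx 14 (by omega) _ (by norm_num)]; decide +kernel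
  · rw [hx 14 (by omega) _ (by norm_num)]; decide +kernel
  · rw [hx 14 (by omega) _ (by norm_num)]; decide +kernel
  · rw [hx 15 (by omega) _ (by norm_num)]; decide +kernel
  · rw [hx 15 (by omega) _ (by norm_num)]; decide +kernel

end

/-- KP2: kill patterns for `h = 4` -/
theorem KP2 (h1 : TK2_stmt) : KP2_stmt := by
  intro q v x hP hX t ht1 ht2 hte
  have hq := hP.hq
  have hv := hP.hv
  have hx : ∀ t ≤ v, ∀ r ≤ 16, x t r = (tb t).testBit r := h1 v x hX (by omega) (by omega)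
  by_cases h32 : t < 32
  · have hcases : t = 6 ∨ t = 8 ∨ t = 10 ∨ t = 12 ∨ t = 14 ∨ t = 16 ∨ t = 18 ∨ t = 20 ∨ t = 22 ∨ t = 24 ∨ t = 26 ∨ t = 28 ∨ t = 30 := by
      omega
    rcases hcases with rfl | rfl | rfl | rfl | rfl | rfl | rfl | rfl | rfl | rfl | rfl | rfl | rfl
    · exact KP2_p3 hx (by omega)
    · exact KP2_p2 hx 8 3 ht2 (by norm_num) (by norm_num) (by norm_num) (by norm_num) (by decide +kernel)
    · exact KP2_p1 hx 10 3 ht2 (by norm_num) (by norm_num) (by norm_num) (by decide +kernel)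
    · exact KP2_p1 hx 12 3 ht2 (by norm_num) (by norm_num) (by norm_num) (by decide +kernel)
    · exact KP2_p6 hx (by omega)
    · exact KP2_p2 hx 16 4 ht2 (by norm_num) (by norm_num) (by norm_num) (by norm_num) (by decide +kernel)
    · exact KP2_p1 hx 18 4 ht2 (by norm_num) (by norm_num) (by norm_num) (by decide +kernel)
    · exact KP2_p1 hx 20 4 ht2 (by norm_num) (by norm_num) (by norm_num) (by decide +kernel)
    · exact KP2_p5 hx 22 (by omega) (by norm_num) (by decide +kernel)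
    · exact KP2_p1 hx 24 4 ht2 (by norm_num) (by norm_num) (by norm_num) (by decide +kernel)
    · exact KP2_p1 hx 26 4 ht2 (by norm_num) (by norm_num) (by norm_num) (by decide +kernel)
    · exact KP2_p1 hx 28 4 ht2 (by norm_num) (by norm_num) (by norm_num) (by decide +kernel)
    · exact KP2_p5 hx 30 (by omega) (by norm_num) (by decide +kernel)
  · have hj : (t - 32) % 8 = 0 ∨ (t - 32) % 8 = 2 ∨ (t - 32) % 8 = 4 ∨ (t - 32) % 8 = 6 := by omega
    rcases hj with hj | hj | hj | hj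
    · refine KP2_p1 hx t 4 ht2 (by omega) (by norm_num) (by norm_num) ?_
      rw [KP2_per' t 0 (by omega) hj]
      decide +kernel
    · refine KP2_p1 hx t 4 ht2 (by omega) (by norm_num) (by norm_num) ?_
      rw [KP2_per' t 2 (by omega) hj]
      decide +kernel
    · refine KP2_p1 hx t 4 ht2 (by omega) (by norm_num) (by norm_num) ?_
      rw [KP2_per' t 4 (by omega) hj]
      decide +kernel
    · refine KP2_p5 hx t (by omega) (by omega) ?_
      rw [KP2_per' t 6 (by omega) hj, KP2_per' (t + 1) 7 (by omega) (by omega), KP2_per' (t + 2) 0 (by omega) (by omega)]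
      decide +kernel

end Pool.Agent.U4
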