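import Pool.Agent.helper13.U4.Spec

set_option autoImplicit false

namespace Pool.Agent.U4

open Pool.Agent.UL

theorem TK2_ex1 (a b c : Bool) : ((a ^^ b ^^ c) ^^ (a && b && c)) = ex1 a b c := by
  cases a <;> cases b <;> cases c <;> rfl

theorem TK2_two (s r : ℕ) : (2 * s).testBit r = (decide (1 ≤ r) && s.testBit (r - 1)) := by
  have h := Nat.testBit_two_pow_mul (i := 1) (a := s) (j := r)
  rw [pow_one] at h
  exact h

theorem TK2_four (s r : ℕ) : (4 * s).testBit r = (decide (2 ≤ r) && s.testBit (r - 2)) := by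
  have h := Nat.testBit_two_pow_mul (i := 2) (a := s) (j := r)
  norm_num at h
  exact h

theorem TK2_bit (s r : ℕ) (hr : r ≤ 16) : (nx s).testBit r =
    ex1 (s.testBit r) (decide (1 ≤ r) && s.testBit (r - 1)) (decide (2 ≤ r) && s.testBit (r - 2)) := by
  unfold nx
  rw [Nat.testBit_mod_two_pow, decide_eq_true (show r < 17 by omega), Bool.true_and, Nat.testBit_xor, Nat.testBit_xor,
    Nat.testBit_xor, Nat.testBit_and, Nat.testBit_and, TK2_two, TK2_four, TK2_ex1]

theorem TK2_step (t : ℕ) : tb (t + 1) = nx (tb t) := by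
  unfold tb
  rw [← Function.iterate_succ_apply' nx]
  by_cases h1 : t + 1 < 32
  · rw [if_pos h1, if_pos (by omega)]
  · rw [if_neg h1]
    by_cases h2 : t < 32
    · rw [if_pos h2]
      have : 32 + (t + 1 - 32) % 8 = t + 1 := by omega
      rw [this]
    · rw [if_neg h2]
      by_cases h3 : (t - 32) % 8 = 7
      · have e1 : 32 + (t + 1 - 32) % 8 = 32 := by omega
        have e2 : (32 + (t - 32) % 8).succ = 40 := by omega
        rw [e1, e2]
        decide +kernel
      · have e1 : 32 + (t + 1 - 32) % 8 = (32 + (t - 32) % 8).succ := by omega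
        rw [e1]

theorem TK2_col {v : ℕ} {x : ℕ → ℕ → Bool} (hX : XR v x) (ρ : ℕ) (hρ : ρ ≤ 16) (h0 : ∀ r ≤ ρ, x 0 r = (tb 0).testBit r) :
    ∀ t ≤ v, ∀ r ≤ ρ, x t r = (tb t).testBit r := by
  intro t
  induction t with
  | zero => exact fun _ => h0
  | succ t ih =>
    intro ht r hr
    have ih' := ih (by omega)
    rw [TK2_step, TK2_bit _ _ (by omega)]
    match r, hr with
    | 0, hr =>
      rw [hX.s0 t (by omega), ih' 0 hr]
      cases (tb t).testBit 0 <;> rfl
    | 1, hr =>
      rw [hX.s1 t (by omega), ih' 1 hr, ih' 0 (by omega)]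
      cases (tb t).testBit 1 <;> cases (tb t).testBit 0 <;> rfl
    | (r + 2), hr =>
      rw [hX.s2 t (by omega) r, ih' (r + 2) hr, ih' (r + 1) (by omega), ih' r (by omega),
        decide_eq_true (show 1 ≤ r + 2 by omega), decide_eq_true (show 2 ≤ r + 2 by omega), Bool.true_and, Bool.true_and]
      rfl

theorem TK2_dec : ∀ r < 15, (nx^[35] 16861).testBit r = (tb 0).testBit (r + 2) := by
  decide +kernel

/-- TK2: the rows up to 16 for `h = 4` -/
theorem TK2 : TK2_stmt := by
  intro v x hX hv hv35
  refine TK2_col hX 16 (le_refl _) ?_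
  intro r
  induction r using Nat.strong_induction_on with
  | _ r ih =>
    intro hr
    match r, ih, hr with
    | 0, _, _ =>
      rw [hX.z0]
      decide +kernel
    | 1, _, _ =>
      rw [hX.z1]
      decide +kernel
    | (r + 2), ih, hr =>
      rw [← hX.w r, TK2_col hX r (by omega) (fun r' hr' => ih r' (by omega) (by omega)) v (le_refl _) r (le_refl _)]
      have e : tb v = nx^[35] 16861 := by
        unfold tb
        rw [if_neg (by omega)]
        have : 32 + (v - 32) % 8 = 35 := by omega
        rw [this]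
      rw [e]
      exact TK2_dec r (by omega)

end Pool.Agent.U4
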